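import Pool.Agent.W922.GY2.Stm

/-!
Project GY, part 2, piece CPT: elements whose first powers stay in the compact
neighbourhood are close to `1`.
-/

namespace Pool.Agent.W921.GY2.CPT

open Filter Topology Set
open Pool.Agent.W922.GY2

theorem pf : S_CPT := by
  intro G _ _ _ _ U hU V hV
  have hUc : IsClosed U := hU.cpt.isClosed
  -- closed sets
  let F : ℕ → Set G := fun N => {g | ∀ n ≤ N, g ^ n ∈ U}
  have hFc : ∀ N, IsClosed (F N) := by
    intro N
    have : F N = ⋂ n : ℕ, ⋂ _ : n ≤ N, (fun g : G => g ^ n) ⁻¹' U := by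
      ext g
      simp [F]
    rw [this]
    exact isClosed_iInter fun n => isClosed_iInter fun _ => hUc.preimage (continuous_pow n)
  have hanti : ∀ {M N : ℕ}, M ≤ N → F N ⊆ F M := by
    intro M N hMN g hg n hn
    exact hg n (hn.trans hMN)
  have hK : IsCompact (U \ interior V) := hU.cpt.diff isOpen_interior
  have hempty : (U \ interior V) ∩ ⋂ N, F N = ∅ := by
    rw [Set.eq_empty_iff_forall_notMem]
    rintro g ⟨⟨_, hgV⟩, hg⟩
    have : g = 1 := by
      apply hU.nss
      intro n
      exact (Set.mem_iInter.1 hg n) n le_rfl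
    subst this
    exact hgV (mem_interior_iff_mem_nhds.2 hV)
  have hdir : Directed (· ⊇ ·) F := by
    intro M N
    exact ⟨max M N, hanti (le_max_left _ _), hanti (le_max_right _ _)⟩
  obtain ⟨N, hN⟩ := hK.elim_directed_family_closed F hFc hempty hdir
  refine ⟨max N 1, by omega, ?_⟩
  intro g hg
  by_contra hgV
  have h1 : g ∈ U := by
    have := hg 1 (le_max_right _ _)
    simpa using this
  have h2 : g ∈ F N := fun n hn => hg n (hn.trans (le_max_left _ _))
  have h3 : g ∈ (U \ interior V) ∩ F N :=
    ⟨⟨h1, fun h => hgV (interior_subset h)⟩, h2⟩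
  rw [hN] at h3
  exact h3

end Pool.Agent.W921.GY2.CPT
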